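import Pool.Agent.H50.ODG.Targets

/-!
# Board odg_modules, row FMB
-/

set_option autoImplicit false

namespace Pool.Agent.H60.ODG

open Pool.Agent.H57.CP Pool.Agent.H39.TO Pool.Agent.H39.OD Pool.Agent.H50.ODG

theorem den_odd (k p : ℕ) (hp : Odd p) : Odd ((k : ℚ) / p).den := by
  have h : (((k : ℤ) : ℚ) / ((p : ℤ) : ℚ)).den ∣ p := by
    have := Rat.den_dvd (k : ℤ) (p : ℤ)
    rw [Rat.divInt_eq_div] at this
    exact_mod_cast this
  push_cast at h
  exact Odd.of_dvd_nat hp h

theorem cn_ne {u : ℚ} (hu : Odd u.den) : cn u ≠ 0 := by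
  intro h
  unfold cn at h
  rw [Real.cos_eq_zero_iff] at h
  obtain ⟨k, hk⟩ := h
  have hpi := Real.pi_pos
  have h1 : (u : ℝ) = (2 * k + 1) / 2 := by
    have h2 : (u : ℝ) * Real.pi = ((2 * k + 1) / 2) * Real.pi := by linarith
    exact mul_right_cancel₀ hpi.ne' h2
  have h2 : (u : ℚ) = (2 * k + 1) / 2 := by exact_mod_cast h1
  have h3 : (u.num : ℚ) / u.den = (2 * k + 1) / 2 := by rw [Rat.num_div_den]; exact h2
  have hd : (u.den : ℚ) ≠ 0 := by exact_mod_cast u.den_nz
  rw [div_eq_div_iff hd (by norm_num)] at h3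
  have h4 : u.num * 2 = (2 * k + 1) * (u.den : ℤ) := by exact_mod_cast h3
  obtain ⟨m, hm⟩ := hu
  rw [hm] at h4
  push_cast at h4
  have h5 : u.num * 2 = 2 * (2 * (k * m) + k + m) + 1 := by linarith
  omega

theorem o1 {p : ℕ} (hp : Odd p) : Odd ((1 : ℚ) / p).den := by
  have := den_odd 1 p hp
  push_cast at this
  exact this

theorem o2 {p : ℕ} (hp : Odd p) : Odd ((2 : ℚ) / p).den := by
  have := den_odd 2 p hp
  push_cast at this
  exact this

theorem o3 {p : ℕ} (hp : Odd p) : Odd ((3 : ℚ) / p).den := by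
  have := den_odd 3 p hp
  push_cast at this
  exact this

theorem o4 {p : ℕ} (hp : Odd p) : Odd ((4 : ℚ) / p).den := by
  have := den_odd 4 p hp
  push_cast at this
  exact this

theorem frac2 {p k a b : ℕ} (hp : 0 < p) (hb : 0 < b) (h : (k : ℚ) / p = a / b) :
    k * b = a * p := by
  have hp' : (p : ℚ) ≠ 0 := by exact_mod_cast hp.ne'
  have hb' : (b : ℚ) ≠ 0 := by exact_mod_cast hb.ne'
  rw [div_eq_div_iff hp' hb'] at h
  exact_mod_cast h

theorem pk {p : ℕ} (hp : 3 ≤ p) : (0 : ℚ) < p := by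
  have : 0 < p := by omega
  exact_mod_cast this

theorem o13 : Odd ((1 : ℚ) / 3).den := by
  have := o1 (p := 3) (by decide)
  push_cast at this
  exact this

theorem o17 : Odd ((1 : ℚ) / 7).den := by
  have := o1 (p := 7) (by decide)
  push_cast at this
  exact this

theorem o27 : Odd ((2 : ℚ) / 7).den := by
  have := o2 (p := 7) (by decide)
  push_cast at this
  exact this

theorem pf_FMB : T_FMB := by
  intro u v w h
  have key : (0 < u ∧ 0 < v ∧ 0 < w) ∧ Odd u.den ∧ Odd v.den := by
    rcases h with h | h | h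
    · rcases h with ⟨q, q', m, h1, h2, h3, h4, h5, rfl, rfl, rfl⟩ |
        ⟨p, c, h1, h2, h3, h4, rfl, rfl, rfl⟩ |
        ⟨p, h1, h2, h3, ⟨rfl, rfl, rfl⟩ | ⟨rfl, rfl, rfl⟩⟩ | ⟨rfl, rfl, rfl⟩ | ⟨rfl, rfl, rfl⟩
      · have e1 := pk h3
        have e2 := pk (p := q') (by omega)
        have e3 : (0 : ℚ) < m := by
          have : 0 < m := by omega
          exact_mod_cast this
        exact ⟨⟨by positivity, by positivity, by positivity⟩, o1 h1, o1 h2⟩
      · have e1 := pk h3
        have e2 := pk h4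
        exact ⟨⟨by positivity, by positivity, by positivity⟩, o2 h1, o1 h2⟩
      · have e1 := pk (p := p) (by omega)
        exact ⟨⟨by positivity, by positivity, by positivity⟩, o3 h1, o13⟩
      · have e1 := pk (p := p) (by omega)
        exact ⟨⟨by positivity, by positivity, by positivity⟩, o13, o1 h1⟩
      · exact ⟨⟨by positivity, by positivity, by positivity⟩, o27, o13⟩
      · exact ⟨⟨by positivity, by positivity, by positivity⟩, o13, o17⟩
    · rcases h with ⟨p, h1, h2, ⟨rfl, rfl, rfl⟩ | ⟨rfl, rfl, rfl⟩ | ⟨-, rfl, rfl, rfl⟩⟩ |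
        ⟨rfl, rfl, rfl⟩
      · have e1 := pk (p := p) (by omega)
        exact ⟨⟨by positivity, by positivity, by positivity⟩, o2 h1, o1 h1⟩
      · have e1 := pk (p := p) (by omega)
        exact ⟨⟨by positivity, by positivity, by positivity⟩, o4 h1, o1 h1⟩
      · have e1 := pk (p := p) (by omega)
        exact ⟨⟨by positivity, by positivity, by positivity⟩, o3 h1, o1 h1⟩
      · exact ⟨⟨by positivity, by positivity, by positivity⟩, o27, o17⟩
    · rcases h with ⟨q, m, h1, h2, h3, rfl, rfl, rfl⟩ | ⟨q, p, h1, h2, h3, h4, rfl, rfl, rfl⟩ |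
        ⟨p, h1, h2, ⟨rfl, rfl, rfl⟩ | ⟨rfl, rfl, rfl⟩⟩
      · have e1 := pk h2
        have e3 : (0 : ℚ) < m := by
          have : 0 < m := by omega
          exact_mod_cast this
        exact ⟨⟨by positivity, by positivity, by positivity⟩, o1 h1, o1 h1⟩
      · have e1 := pk h3
        have e2 := pk h4
        exact ⟨⟨by positivity, by positivity, by positivity⟩, o1 h1, o1 h1⟩
      · have e1 := pk (p := p) (by omega)
        exact ⟨⟨by positivity, by positivity, by positivity⟩, o1 h1, o1 h1⟩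
      · have e1 := pk (p := p) (by omega)
        exact ⟨⟨by positivity, by positivity, by positivity⟩, o2 h1, o2 h1⟩
  refine ⟨key.1.1, key.1.2.1, key.1.2.2, key.2.1, key.2.2, cn_ne key.2.1, cn_ne key.2.2, ?_, ?_⟩
  · rintro (h | h)
    · rcases h with ⟨q, q', m, h1, h2, h3, h4, h5, rfl, rfl, rfl⟩ |
        ⟨p, c, h1, h2, h3, h4, rfl, rfl, rfl⟩ |
        ⟨p, h1, h2, h3, ⟨rfl, rfl, rfl⟩ | ⟨rfl, rfl, rfl⟩⟩ | ⟨rfl, rfl, rfl⟩ | ⟨rfl, rfl, rfl⟩
      · intro h
        have := frac2 (p := q) (k := 1) (a := 1) (b := q') (by omega) (by omega)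
          (by push_cast; exact h)
        omega
      · intro h
        have := frac2 (p := p) (k := 2) (a := 1) (b := c) (by omega) (by omega)
          (by push_cast; exact h)
        obtain ⟨r, hr⟩ := h1
        omega
      · intro h
        have := frac2 (p := p) (k := 3) (a := 1) (b := 3) (by omega) (by omega)
          (by push_cast; exact h)
        omega
      · intro h
        have := frac2 (p := 3) (k := 1) (a := 1) (b := p) (by omega) (by omega)
          (by push_cast; exact h)
        omega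
      · norm_num
      · norm_num
    · rcases h with ⟨p, h1, h2, ⟨rfl, rfl, rfl⟩ | ⟨rfl, rfl, rfl⟩ | ⟨-, rfl, rfl, rfl⟩⟩ |
        ⟨rfl, rfl, rfl⟩
      · intro h
        have := frac2 (p := p) (k := 2) (a := 1) (b := p) (by omega) (by omega)
          (by push_cast; exact h)
        omega
      · intro h
        have := frac2 (p := p) (k := 4) (a := 1) (b := p) (by omega) (by omega)
          (by push_cast; exact h)
        omega
      · intro h
        have := frac2 (p := p) (k := 3) (a := 1) (b := p) (by omega) (by omega)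
          (by push_cast; exact h)
        omega
      · norm_num
  · rintro (⟨q, m, h1, h2, h3, rfl, rfl, rfl⟩ | ⟨q, p, h1, h2, h3, h4, rfl, rfl, rfl⟩ |
        ⟨p, h1, h2, ⟨rfl, rfl, rfl⟩ | ⟨rfl, rfl, rfl⟩⟩)
    · rfl
    · rfl
    · rfl
    · rfl

end Pool.Agent.H60.ODG
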