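import Pool.Agent.H50.ODG.Targets

/-!
# Board odg_modules, row KN7
-/

set_option autoImplicit false

namespace Pool.Agent.H60.ODG

open Pool.Agent.H57.CP Pool.Agent.H39.TO Pool.Agent.H39.OD Pool.Agent.H50.ODG

theorem frac {p k a b : ℕ} (hp : 0 < p) (hb : 0 < b) (h : (k : ℚ) / p = a / b) : k * b = a * p := by
  have hp' : (p : ℚ) ≠ 0 := by exact_mod_cast hp.ne'
  have hb' : (b : ℚ) ≠ 0 := by exact_mod_cast hb.ne'
  rw [div_eq_div_iff hp' hb'] at h
  exact_mod_cast h

theorem n1 {p a : ℕ} (hp : 0 < p) (h : (1 : ℚ) / p = a / 7) : 7 = a * p := by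
  have := frac (k := 1) (b := 7) hp (by norm_num) (by push_cast; exact h)
  omega

theorem n2 {p a : ℕ} (hp : 0 < p) (h : (2 : ℚ) / p = a / 7) : 14 = a * p := by
  have := frac (k := 2) (b := 7) hp (by norm_num) (by push_cast; exact h)
  omega

theorem n3 {p a : ℕ} (hp : 0 < p) (h : (3 : ℚ) / p = a / 7) : 21 = a * p := by
  have := frac (k := 3) (b := 7) hp (by norm_num) (by push_cast; exact h)
  omega

theorem n4 {p a : ℕ} (hp : 0 < p) (h : (4 : ℚ) / p = a / 7) : 28 = a * p := by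
  have := frac (k := 4) (b := 7) hp (by norm_num) (by push_cast; exact h)
  omega

theorem kno4 {x y z : ℚ} (h : KnO x y z) :
    (x = 4 / 7 → y = 1 / 7 ∧ z = 1 / 7) ∧ y ≠ 4 / 7 ∧ z ≠ 4 / 7 := by
  have e4 : (4 : ℚ) / 7 = (4 : ℕ) / 7 := by norm_num
  rcases h with ⟨a, b, c, ha, hb, hc, rfl, rfl, rfl⟩ | ⟨p, c, -, hp, hc, rfl, rfl, rfl⟩ |
    ⟨p, -, hp, rfl, rfl, rfl⟩ | ⟨p, -, hp, rfl, rfl, rfl⟩ | ⟨p, -, hp, rfl, rfl, rfl⟩ |
    ⟨p, -, hp, rfl, rfl, rfl⟩ | ⟨rfl, rfl, rfl⟩
  · refine ⟨fun h => ?_, fun h => ?_, fun h => ?_⟩ <;> rw [e4] at h <;>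
      · have := n1 (by omega) h
        omega
  · refine ⟨fun h => ?_, fun h => ?_, fun h => ?_⟩ <;> rw [e4] at h
    · have := n2 (by omega) h
      omega
    · have := n1 (by omega) h
      omega
    · have := n1 (by omega) h
      omega
  · refine ⟨fun h => ?_, fun h => ?_, fun h => ?_⟩
    · norm_num at h
    · rw [e4] at h
      have := n1 (by omega) h
      omega
    · rw [e4] at h
      have := n2 (by omega) h
      omega
  · refine ⟨fun h => ?_, fun h => ?_, fun h => ?_⟩
    · norm_num at h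
    · rw [e4] at h
      have := n1 (by omega) h
      omega
    · rw [e4] at h
      have := n3 (by omega) h
      omega
  · refine ⟨fun h => ?_, fun h => ?_, fun h => ?_⟩
    · rw [e4] at h
      have := n4 (by omega) h
      have h7 : p = 7 := by omega
      subst h7
      norm_num
    · rw [e4] at h
      have := n1 (by omega) h
      omega
    · rw [e4] at h
      have := n1 (by omega) h
      omega
  · refine ⟨fun h => ?_, fun h => ?_, fun h => ?_⟩ <;> rw [e4] at h <;>
      · have := n2 (by omega) h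
        omega
  · norm_num

theorem kno3 {x y z : ℚ} (h : KnO x y z) :
    x ≠ 3 / 7 ∧ y ≠ 3 / 7 ∧ (z = 3 / 7 → x = 1 / 3 ∧ y = 1 / 7) := by
  have e3 : (3 : ℚ) / 7 = (3 : ℕ) / 7 := by norm_num
  rcases h with ⟨a, b, c, ha, hb, hc, rfl, rfl, rfl⟩ | ⟨p, c, -, hp, hc, rfl, rfl, rfl⟩ |
    ⟨p, -, hp, rfl, rfl, rfl⟩ | ⟨p, -, hp, rfl, rfl, rfl⟩ | ⟨p, -, hp, rfl, rfl, rfl⟩ |
    ⟨p, -, hp, rfl, rfl, rfl⟩ | ⟨rfl, rfl, rfl⟩
  · refine ⟨fun h => ?_, fun h => ?_, fun h => ?_⟩ <;> rw [e3] at h <;>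
      · have := n1 (by omega) h
        omega
  · refine ⟨fun h => ?_, fun h => ?_, fun h => ?_⟩ <;> rw [e3] at h
    · have := n2 (by omega) h
      omega
    · have := n1 (by omega) h
      omega
    · have := n1 (by omega) h
      omega
  · refine ⟨fun h => ?_, fun h => ?_, fun h => ?_⟩
    · norm_num at h
    · rw [e3] at h
      have := n1 (by omega) h
      omega
    · rw [e3] at h
      have := n2 (by omega) h
      omega
  · refine ⟨fun h => ?_, fun h => ?_, fun h => ?_⟩
    · norm_num at h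
    · rw [e3] at h
      have := n1 (by omega) h
      omega
    · rw [e3] at h
      have := n3 (by omega) h
      have h7 : p = 7 := by omega
      subst h7
      norm_num
  · refine ⟨fun h => ?_, fun h => ?_, fun h => ?_⟩
    · rw [e3] at h
      have := n4 (by omega) h
      omega
    · rw [e3] at h
      have := n1 (by omega) h
      omega
    · rw [e3] at h
      have := n1 (by omega) h
      omega
  · refine ⟨fun h => ?_, fun h => ?_, fun h => ?_⟩ <;> rw [e3] at h <;>
      · have := n2 (by omega) h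
        omega
  · norm_num

theorem pf_KN7 : T_KN7 := by
  refine ⟨fun u v h => ?_, fun u v h => ?_⟩
  · obtain ⟨-, h | h | h | h | h | h⟩ := h
    · exact absurd rfl (kno4 h).2.2
    · exact absurd rfl (kno4 h).2.1
    · exact absurd rfl (kno4 h).2.2
    · exact absurd rfl (kno4 h).2.1
    · exact (kno4 h).1 rfl
    · exact ((kno4 h).1 rfl).symm
  · obtain ⟨-, h | h | h | h | h | h⟩ := h
    · exact Or.inl ((kno3 h).2.2 rfl)
    · exact absurd rfl (kno3 h).2.1
    · exact Or.inr ((kno3 h).2.2 rfl).symm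
    · exact absurd rfl (kno3 h).2.1
    · exact absurd rfl (kno3 h).1
    · exact absurd rfl (kno3 h).1

end Pool.Agent.H60.ODG
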