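import Pool.Agent.H50.ODG.Targets

/-!
# Board odg_modules, row MDQ
-/

set_option autoImplicit false

namespace Pool.Agent.H60.ODG

open Pool.Agent.H57.CP Pool.Agent.H39.TO Pool.Agent.H39.OD Pool.Agent.H50.ODG

theorem sn_pos {u : ℚ} (h0 : 0 < u) (h1 : u < 1) : 0 < sn u := by
  unfold sn
  have h0' : (0 : ℝ) < u := by exact_mod_cast h0
  have h1' : (u : ℝ) < 1 := by exact_mod_cast h1
  have hpi := Real.pi_pos
  apply Real.sin_pos_of_pos_of_lt_pi
  · positivity
  · nlinarith

theorem ab_eq {α β : ℝ} (ha0 : 0 < α) (ha1 : α < Real.pi) (hb0 : 0 < β) (hb1 : β < Real.pi)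
    (h : Real.cos α * Real.sin β = Real.cos β * Real.sin α) : α = β := by
  have h1 : Real.sin (β - α) = 0 := by
    rw [Real.sin_sub]
    linarith
  rw [Real.sin_eq_zero_iff_of_lt_of_lt (by linarith) (by linarith)] at h1
  linarith

theorem pf_MDQ (_hLOR : T_LOR) : T_MDQ := by
  intro u v w α β hu0 hu1 hv0 hv1 ha0 ha1 hb0 hb1 hL
  have su := sn_pos hu0 hu1
  have sv := sn_pos hv0 hv1
  have sa := Real.sin_pos_of_pos_of_lt_pi ha0 ha1
  have sb := Real.sin_pos_of_pos_of_lt_pi hb0 hb1
  have eu : sn u ^ 2 + cn u ^ 2 = 1 := Real.sin_sq_add_cos_sq _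
  have ev : sn v ^ 2 + cn v ^ 2 = 1 := Real.sin_sq_add_cos_sq _
  have ea : Real.sin α ^ 2 + Real.cos α ^ 2 = 1 := Real.sin_sq_add_cos_sq _
  have eb : Real.sin β ^ 2 + Real.cos β ^ 2 = 1 := Real.sin_sq_add_cos_sq _
  have hLd : eL u v w α β * (Real.sin α * Real.sin β) =
      kap u v w + Real.cos α * Real.cos β := by
    unfold eL
    field_simp
  have hK : kap u v w * (sn u * sn v) = cn w + cn u * cn v := by
    unfold kap
    field_simp
  have hS2 : eS u v w α β ^ 2 = eL u v w α β ^ 2 - 1 := by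
    unfold eS
    exact Real.sq_sqrt (by nlinarith)
  have hS0 : 0 < eS u v w α β := by
    unfold eS
    exact Real.sqrt_pos.2 (by nlinarith)
  have hx3 : (x1 u v w α β).1 3 = eL u v w α β := by
    have h1 : (x1 u v w α β).1 3 = Real.sqrt (1 + 0 ^ 2 + 0 ^ 2 + eS u v w α β ^ 2) := rfl
    rw [h1, hS2]
    have h2 : (1 : ℝ) + 0 ^ 2 + 0 ^ 2 + (eL u v w α β ^ 2 - 1) = eL u v w α β ^ 2 := by ring
    rw [h2]
    exact Real.sqrt_sq (by linarith)
  have hx0 : (x1 u v w α β).1 0 = 0 := rfl
  have hx1 : (x1 u v w α β).1 1 = 0 := rfl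
  have hx2 : (x1 u v w α β).1 2 = eS u v w α β := rfl
  have ho0 : o.1 0 = 0 := rfl
  have ho1 : o.1 1 = 0 := rfl
  have ho2 : o.1 2 = 0 := rfl
  have ho3 : o.1 3 = 1 := rfl
  have hm0 : m1 0 = 1 := rfl
  have hm1 : m1 1 = 0 := rfl
  have hm2 : m1 2 = 0 := rfl
  have hm3 : m1 3 = 0 := rfl
  have hna0 : na u α 0 = -cn u := rfl
  have hna1 : na u α 1 = sn u * Real.cos α := rfl
  have hna2 : na u α 2 = sn u * Real.sin α := rfl
  have hna3 : na u α 3 = 0 := rfl
  have hnb0 : nb u v w α β 0 = -cn v := rfl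
  have hnb1 : nb u v w α β 1 = sn v * Real.cos β := rfl
  have hnb2 : nb u v w α β 2 = -(sn v * Real.sin β * eL u v w α β) := rfl
  have hnb3 : nb u v w α β 3 = -(sn v * Real.sin β * eS u v w α β) := rfl
  generalize eL u v w α β = L at *
  generalize eS u v w α β = S at *
  generalize kap u v w = κ at *
  have hxb : mk o.1 (nb u v w α β) = -(sn v * Real.sin β * S) := by
    unfold mk
    rw [ho0, ho1, ho2, ho3, hnb0, hnb1, hnb2, hnb3]
    ring
  have hya : mk (x1 u v w α β).1 (na u α) = -(sn u * Real.sin α * S) := by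
    unfold mk
    rw [hx0, hx1, hx2, hx3, hna0, hna1, hna2, hna3]
    ring
  refine ⟨⟨?_, ?_, ?_, ?_, ?_, ?_, ?_, ?_, ?_, ?_, ?_, ?_⟩, ?_, hS0, hxb, hya, ?_⟩
  · unfold mk
    rw [hna0, hna1, hna2, hna3]
    linear_combination -(1 : ℝ) * eu - sn u ^ 2 * ea
  · unfold mk
    rw [hnb0, hnb1, hnb2, hnb3]
    linear_combination -(1 : ℝ) * ev - sn v ^ 2 * eb + (sn v * Real.sin β) ^ 2 * hS2
  · unfold mk
    rw [hm0, hm1, hm2, hm3]
    ring
  · unfold mk
    rw [hm0, hm1, hm2, hm3, hna0, hna1, hna2, hna3]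
    ring
  · unfold mk
    rw [hm0, hm1, hm2, hm3, hnb0, hnb1, hnb2, hnb3]
    ring
  · unfold mk
    rw [hna0, hna1, hna2, hna3, hnb0, hnb1, hnb2, hnb3]
    linear_combination sn u * sn v * hLd + hK
  · unfold mk
    rw [ho0, ho1, ho2, ho3, hna0, hna1, hna2, hna3]
    ring
  · unfold mk
    rw [ho0, ho1, ho2, ho3, hm0, hm1, hm2, hm3]
    ring
  · unfold mk
    rw [hx0, hx1, hx2, hx3, hnb0, hnb1, hnb2, hnb3]
    ring
  · unfold mk
    rw [hx0, hx1, hx2, hx3, hm0, hm1, hm2, hm3]
    ring
  · rw [hxb]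
    have : 0 < sn v * Real.sin β * S := by positivity
    linarith
  · rw [hya]
    have : 0 < sn u * Real.sin α * S := by positivity
    linarith
  · unfold ch mk
    rw [ho0, ho1, ho2, ho3, hx0, hx1, hx2, hx3]
    ring
  · constructor
    · rintro ⟨r, s, t, h⟩
      have h1 := congrFun h 1
      have h2 := congrFun h 2
      have h3 := congrFun h 3
      simp only [Pi.sub_apply, Pi.add_apply, Pi.smul_apply, smul_eq_mul] at h1 h2 h3
      rw [ho1, hx1, hna1, hnb1, hm1] at h1
      rw [ho2, hx2, hna2, hnb2, hm2] at h2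
      rw [ho3, hx3, hna3, hnb3, hm3] at h3
      set R := r * sn u with hR
      set T := s * sn v with hT
      have g1 : R * Real.cos α + T * Real.cos β = 0 := by
        rw [hR, hT]; linarith
      have g2 : R * Real.sin α - T * Real.sin β * L = -S := by
        rw [hR, hT]; linarith
      have g3 : T * Real.sin β * S = L - 1 := by
        rw [hT]; linarith
      have g4 : R * Real.sin α * S = 1 - L := by
        have : R * Real.sin α * S = (R * Real.sin α - T * Real.sin β * L) * S +
          L * (T * Real.sin β * S) := by ring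
        rw [this, g2, g3]
        nlinarith
      have g5 : (L - 1) * (Real.cos α * Real.sin β - Real.cos β * Real.sin α) = 0 := by
        have e1 : (L - 1) * (Real.cos α * Real.sin β) =
            -(R * Real.cos α) * Real.sin α * Real.sin β * S := by
          linear_combination (Real.cos α * Real.sin β) * g4
        have e2 : (L - 1) * (Real.cos β * Real.sin α) =
            (T * Real.cos β) * Real.sin α * Real.sin β * S := by
          linear_combination -(Real.cos β * Real.sin α) * g3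
        rw [mul_sub, e1, e2]
        linear_combination -(Real.sin α * Real.sin β * S) * g1
      have g6 : Real.cos α * Real.sin β - Real.cos β * Real.sin α = 0 := by
        rcases mul_eq_zero.1 g5 with h | h
        · exfalso; linarith
        · exact h
      exact ab_eq ha0 ha1 hb0 hb1 (by linarith)
    · rintro rfl
      refine ⟨(1 - L) / (S * Real.sin α * sn u), (L - 1) / (S * Real.sin α * sn v),
        (1 - L) / (S * Real.sin α * sn u) * cn u + (L - 1) / (S * Real.sin α * sn v) * cn v, ?_⟩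
      funext i
      simp only [Pi.sub_apply, Pi.add_apply, Pi.smul_apply, smul_eq_mul]
      fin_cases i
      · show o.1 0 - (x1 u v w α α).1 0 = _
        rw [ho0, hx0]
        show (0 : ℝ) - 0 = _ * na u α 0 + _ * nb u v w α α 0 + _ * m1 0
        rw [hna0, hnb0, hm0]
        ring
      · show o.1 1 - (x1 u v w α α).1 1 = _ * na u α 1 + _ * nb u v w α α 1 + _ * m1 1
        rw [ho1, hx1, hna1, hnb1, hm1]
        field_simp
        ring
      · show o.1 2 - (x1 u v w α α).1 2 = _ * na u α 2 + _ * nb u v w α α 2 + _ * m1 2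
        rw [ho2, hx2, hna2, hnb2, hm2]
        field_simp
        linear_combination -(Real.sin α * sn u * sn v) * hS2
      · show o.1 3 - (x1 u v w α α).1 3 = _ * na u α 3 + _ * nb u v w α α 3 + _ * m1 3
        rw [ho3, hx3, hna3, hnb3, hm3]
        field_simp
        ring

end Pool.Agent.H60.ODG
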